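import Pool.Agent.W500.FL.Stm

set_option autoImplicit false

namespace Pool.Agent.W190.FL.FR

open Polynomial Pool.Agent.W500.FL

/-- p-th roots modulo a squarefree monic polynomial over a finite field. -/
theorem root (K : Type) [Field K] [Fintype K] (p : ℕ) [hp : Fact p.Prime] [CharP K p]
    (ρ R : K[X]) (hm : ρ.Monic) (hs : Squarefree ρ) : ∃ z : K[X], ρ ∣ z ^ p - R := by
  classical
  let I : Ideal K[X] := Ideal.span {ρ}
  have : Module.Finite K (K[X] ⧸ I) := hm.finite_quotient
  have : Finite (K[X] ⧸ I) := Module.finite_of_finite K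
  have hinj : Function.Injective (fun x : K[X] ⧸ I => x ^ p) := by
    intro x y hxy
    obtain ⟨a, rfl⟩ := Ideal.Quotient.mk_surjective x
    obtain ⟨b, rfl⟩ := Ideal.Quotient.mk_surjective y
    simp only at hxy
    rw [← map_pow, ← map_pow, Ideal.Quotient.eq, Ideal.mem_span_singleton, ← sub_pow_char] at hxy
    rw [Ideal.Quotient.eq, Ideal.mem_span_singleton]
    exact (hs.dvd_pow_iff_dvd hp.out.ne_zero).mp hxy
  have hsur := (Finite.injective_iff_surjective.mp hinj)
  obtain ⟨x, hx⟩ := hsur (Ideal.Quotient.mk I R)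
  obtain ⟨z, rfl⟩ := Ideal.Quotient.mk_surjective x
  refine ⟨z, ?_⟩
  simp only at hx
  rw [← map_pow, Ideal.Quotient.eq, Ideal.mem_span_singleton] at hx
  exact hx

theorem main : S_FR := by
  classical
  intro K _ _ p hp _ V H ρ R h1 h2 N
  -- local solutions
  have hloc : ∀ h, ∃ y : K[X], h ∈ H → ρ h ∣ V ^ p * y ^ p - R h := by
    intro h
    by_cases hh : h ∈ H
    · obtain ⟨hm, hs, hc⟩ := h1 h hh
      obtain ⟨z, hz⟩ := root K p (ρ h) (R h) hm hs
      obtain ⟨a, b, hab⟩ := hc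
      refine ⟨b * z, fun _ => ?_⟩
      have e1 : ρ h ∣ (V * (b * z)) ^ p - z ^ p := by
        refine dvd_trans ?_ (sub_dvd_pow_sub_pow _ _ p)
        refine ⟨-(a * z), ?_⟩
        have : b * V = 1 - a * ρ h := by rw [← hab]; ring
        calc V * (b * z) - z = (b * V) * z - z := by ring
          _ = ρ h * -(a * z) := by rw [this]; ring
      have e2 : V ^ p * (b * z) ^ p - R h = ((V * (b * z)) ^ p - z ^ p) + (z ^ p - R h) := by
        rw [mul_pow V (b * z) p]; ring
      rw [e2]
      exact dvd_add e1 hz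
    · exact ⟨0, fun h => absurd h hh⟩
  choose y hy using hloc
  -- Chinese remainder theorem
  obtain ⟨Y0, hY0⟩ := Ideal.exists_forall_sub_mem_ideal
    (I := fun h : H => (Ideal.span {ρ h} : Ideal K[X])) (by
      intro i j hij
      show IsCoprime (Ideal.span {ρ i}) (Ideal.span {ρ j})
      rw [Ideal.isCoprime_span_singleton_iff]
      exact h2 i i.2 j j.2 (fun h => hij (Subtype.ext h))) (fun h => y h)
  have hY0' : ∀ h ∈ H, ρ h ∣ Y0 - y h :=
    fun h hh => Ideal.mem_span_singleton.mp (hY0 ⟨h, hh⟩)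
  let M : K[X] := ∏ h ∈ H, ρ h
  have hM : M.Monic := monic_prod_of_monic _ _ (fun h hh => (h1 h hh).1)
  let D := 4 * (M.natDegree + Y0.natDegree + N + 1)
  let Q : K[X] := M * X ^ (D - M.natDegree)
  have hQm : Q.Monic := hM.mul (monic_X_pow _)
  have hQd : Q.natDegree = D := by
    rw [hM.natDegree_mul (monic_X_pow _), natDegree_X_pow]
    omega
  have hlt : Y0.degree < Q.degree := by
    rw [degree_eq_natDegree hQm.ne_zero]
    refine lt_of_le_of_lt degree_le_natDegree ?_
    rw [hQd]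
    exact_mod_cast (by omega : Y0.natDegree < D)
  refine ⟨Y0 + Q, hQm.add_of_right hlt, ?_, ?_, ?_⟩
  · rw [natDegree_add_eq_right_of_degree_lt hlt, hQd]
    exact ⟨_, rfl⟩
  · rw [natDegree_add_eq_right_of_degree_lt hlt, hQd]
    omega
  · intro h hh
    have hMd : ρ h ∣ M := Finset.dvd_prod_of_mem _ hh
    have hd : ρ h ∣ (Y0 + Q) - y h := by
      have : (Y0 + Q) - y h = (Y0 - y h) + Q := by ring
      rw [this]
      exact dvd_add (hY0' h hh) (hMd.mul_right _)
    have hd2 : ρ h ∣ (Y0 + Q) ^ p - (y h) ^ p := dvd_trans hd (sub_dvd_pow_sub_pow _ _ p)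
    have e : V ^ p * (Y0 + Q) ^ p - R h =
        V ^ p * ((Y0 + Q) ^ p - (y h) ^ p) + (V ^ p * (y h) ^ p - R h) := by ring
    rw [e]
    exact dvd_add (hd2.mul_left _) (hy h hh)

end Pool.Agent.W190.FL.FR
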